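import Pool.Agent.Helper97_PP.Kri
import Pool.Agent.Helper66_PP.StmtsLQ

/-!
# Squad PP, part LQ, module FXU: chains normalised by an `ℓ`-element `u`, chains of `C_Y(u)`
-/

open scoped BigOperators

noncomputable section

namespace Pool.Agent.PP.H47F

open Pool.Agent.PP Pool.Agent.PP.H97 Pool.Agent.Helper51_AWC Pool.Agent.Helper79_WRA

section fxu

variable {G : Type} [Group G]

/-- an `ℓ`-element normalising a nontrivial `ℓ`-subgroup centralises a nontrivial element -/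
theorem fix_ne [Finite G] {ℓ : ℕ} [Fact ℓ.Prime] {u : G} (hu : ∃ n : ℕ, u ^ ℓ ^ n = 1)
    {D : Subgroup G} (hD : IsPGroup ℓ D) (hn : u ∈ Subgroup.normalizer (D : Set G))
    (h1 : D ≠ ⊥) : D ⊓ Subgroup.centralizer ({u} : Set G) ≠ ⊥ := by
  have hz : Subgroup.zpowers u ≤ Subgroup.normalizer (D : Set G) := Subgroup.zpowers_le.2 hn
  let act : MulAction (Subgroup.zpowers u) D :=
    { smul := fun g x => ⟨(g : G) * x * (g : G)⁻¹,
        (Subgroup.mem_normalizer_iff.1 (hz g.2) x).1 x.2⟩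
      one_smul := fun x => Subtype.ext (by
        change ((1 : Subgroup.zpowers u) : G) * (x : G) * ((1 : Subgroup.zpowers u) : G)⁻¹ = x
        rw [Subgroup.coe_one, one_mul, inv_one, mul_one])
      mul_smul := fun g h x => Subtype.ext (by
        change ((g * h : Subgroup.zpowers u) : G) * (x : G) * ((g * h : Subgroup.zpowers u) : G)⁻¹ =
          (g : G) * ((h : G) * x * (h : G)⁻¹) * (g : G)⁻¹
        rw [Subgroup.coe_mul]
        group) }
  have hdvd : ℓ ∣ Nat.card D := by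
    obtain ⟨n, hn⟩ := IsPGroup.iff_card.1 hD
    have hn0 : n ≠ 0 := by
      rintro rfl
      rw [pow_zero] at hn
      exact h1 (Subgroup.card_eq_one.1 hn)
    rw [hn]
    exact dvd_pow_self _ hn0
  have h1m : (1 : D) ∈ @MulAction.fixedPoints (Subgroup.zpowers u) D _ act := by
    intro g
    refine Subtype.ext ?_
    change (g : G) * ((1 : D) : G) * (g : G)⁻¹ = ((1 : D) : G)
    rw [Subgroup.coe_one, mul_one, mul_inv_cancel]
  obtain ⟨b, hb, hb1⟩ := @IsPGroup.exists_fixed_point_of_prime_dvd_card_of_fixed_point ℓ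
    (Subgroup.zpowers u) _ (isPGroup_zp hu) _ D act _ hdvd 1 h1m
  intro h
  apply hb1
  have h2 : (b : G) ∈ D ⊓ Subgroup.centralizer ({u} : Set G) := by
    refine ⟨b.2, Subgroup.mem_centralizer_singleton_iff.2 ?_⟩
    have h3 := congrArg (fun x : D => (x : G)) (hb ⟨u, Subgroup.mem_zpowers u⟩)
    change u * (b : G) * u⁻¹ = b at h3
    rw [mul_inv_eq_iff_eq_mul] at h3
    exact h3.symm
  rw [h, Subgroup.mem_bot] at h2
  exact Subtype.ext h2.symm

theorem norm_cent {g u : G} (hg : g ∈ Subgroup.centralizer ({u} : Set G)) :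
    g ∈ Subgroup.normalizer ((Subgroup.centralizer ({u} : Set G) : Subgroup G) : Set G) :=
  Subgroup.le_normalizer hg

theorem norm_inf {g : G} {P Q : Subgroup G} (hP : g ∈ Subgroup.normalizer (P : Set G))
    (hQ : g ∈ Subgroup.normalizer (Q : Set G)) :
    g ∈ Subgroup.normalizer ((P ⊓ Q : Subgroup G) : Set G) := by
  rw [Subgroup.mem_normalizer_iff] at hP hQ ⊢
  intro h
  constructor
  · rintro ⟨h1, h2⟩
    exact ⟨(hP h).1 h1, (hQ h).1 h2⟩
  · rintro ⟨h1, h2⟩
    exact ⟨(hP h).2 h1, (hQ h).2 h2⟩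

theorem stab_insertF [DecidableEq (Subgroup G)] {u : G} {d : Finset (Subgroup G)}
    {P : Subgroup G} (hP : P ∈ d) :
    Subgroup.centralizer ({u} : Set G) ⊓
        stab (insert (P ⊓ Subgroup.centralizer ({u} : Set G)) d) =
      Subgroup.centralizer ({u} : Set G) ⊓ stab d := by
  ext g
  rw [Subgroup.mem_inf, Subgroup.mem_inf, H97.mem_stab, H97.mem_stab]
  refine and_congr_right fun hg => ?_
  constructor
  · intro h D hD
    exact h D (Finset.mem_insert_of_mem hD)
  · intro h D hD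
    rcases Finset.mem_insert.1 hD with rfl | hD
    · exact norm_inf (h P hP) (norm_cent hg)
    · exact h D hD

theorem top_insertF [DecidableEq (Subgroup G)] {d : Finset (Subgroup G)}
    {P Q : Subgroup G} (hP : P ∈ d) (hQ : Q ≤ P) :
    top (insert Q d) = top d := by
  rw [H97.top_insert]
  exact sup_eq_right.2 (hQ.trans (H97.le_tp hP))

theorem mem_psubIn' [Finite G] {ℓ : ℕ} {Y D : Subgroup G} :
    D ∈ psubIn ℓ Y ↔ D ≤ Y ∧ IsPGroup ℓ D := by
  rw [psubIn, Set.Finite.mem_toFinset, Set.mem_ofPred_eq]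

open Classical in
theorem fxu_zero [Finite G] {ℓ : ℕ} [Fact ℓ.Prime] (Y : Subgroup G) (u : G)
    (hu : ∃ n : ℕ, u ^ ℓ ^ n = 1) (W : Subgroup G → Subgroup G → ℤ) :
    ∑ d ∈ ((chainsOn (psubIn ℓ Y) ⊥).filter (fun d => u ∈ stab d)).filter
        (fun d => ¬ ∀ P ∈ d, P ≤ Subgroup.centralizer ({u} : Set G)),
      (-1) ^ (d.card + 1) * W (Subgroup.centralizer ({u} : Set G) ⊓ stab d) (top d) = 0 := by
  set C : Subgroup G := Subgroup.centralizer ({u} : Set G) with hC
  set S := ((chainsOn (psubIn ℓ Y) ⊥).filter (fun d => u ∈ stab d)).filter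
        (fun d => ¬ ∀ P ∈ d, P ≤ C) with hS
  have hmS : ∀ d, d ∈ S ↔ ((d ⊆ psubIn ℓ Y ∧ ⊥ ∈ d ∧ IsChain (· ≤ ·) (d : Set (Subgroup G))) ∧
      u ∈ stab d) ∧ ¬ ∀ P ∈ d, P ≤ C := by
    intro d
    rw [hS, Finset.mem_filter, Finset.mem_filter, mem_chainsOn]
  have hex : ∀ d : Finset (Subgroup G), ∃ m : Subgroup G, d ∈ S →
      m ∈ d ∧ ¬ m ≤ C ∧ ∀ P ∈ d, ¬ P ≤ C → m ≤ P := by
    intro d
    by_cases hd : d ∈ S
    · have hd' := (hmS d).1 hd
      obtain ⟨⟨⟨_, _, hch⟩, _⟩, hne⟩ := hd'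
      push Not at hne
      obtain ⟨x, hx, hxc⟩ := hne
      obtain ⟨m, hm, hmin⟩ := exists_least (d := d.filter (fun P => ¬ P ≤ C))
        (hch.mono (by intro y hy; exact Finset.mem_of_mem_filter y hy))
        ⟨x, Finset.mem_filter.2 ⟨hx, hxc⟩⟩
      rw [Finset.mem_filter] at hm
      exact ⟨m, fun _ => ⟨hm.1, hm.2, fun y hy hyc => hmin y (Finset.mem_filter.2 ⟨hy, hyc⟩)⟩⟩
    · exact ⟨⊥, fun h => absurd h hd⟩
  choose m hm using hex
  let e : Finset (Subgroup G) → Subgroup G := fun d => m d ⊓ C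
  have heC : ∀ d, e d ≤ C := fun d => (inf_le_right : m d ⊓ C ≤ C)
  have heM : ∀ d, e d ≤ m d := fun d => (inf_le_left : m d ⊓ C ≤ m d)
  have hne : ∀ d P, ¬ P ≤ C → P ≠ e d := by
    intro d P hP h
    exact hP (h ▸ heC d)
  have ht : ∀ (d : Finset (Subgroup G)) (P : Subgroup G), P ≠ e d →
      (P ∈ toggle d (e d) ↔ P ∈ d) := by
    intro d P hP
    unfold toggle
    split_ifs with h
    · rw [Finset.mem_erase]
      exact ⟨fun h => h.2, fun h => ⟨hP, h⟩⟩
    · rw [Finset.mem_insert]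
      exact ⟨fun h => h.resolve_left hP, fun h => Or.inr h⟩
  have hins : ∀ d ∈ S, ∃ d₀, m d ∈ d₀ ∧ e d ∉ d₀ ∧
      ((d = d₀ ∧ toggle d (e d) = insert (e d) d₀) ∨
        (d = insert (e d) d₀ ∧ toggle d (e d) = d₀)) := by
    intro d hd
    obtain ⟨h1, h2, h3⟩ := hm d hd
    by_cases h : e d ∈ d
    · refine ⟨d.erase (e d), Finset.mem_erase.2 ⟨hne d _ h2, h1⟩, Finset.notMem_erase _ _,
        Or.inr ⟨(Finset.insert_erase h).symm, ?_⟩⟩
      rw [toggle, if_pos h]
    · refine ⟨d, h1, h, Or.inl ⟨rfl, ?_⟩⟩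
      rw [toggle, if_neg h]
  have hstab : ∀ d ∈ S, C ⊓ stab (toggle d (e d)) = C ⊓ stab d := by
    intro d hd
    obtain ⟨d₀, h1, h2, ⟨h3, h4⟩ | ⟨h3, h4⟩⟩ := hins d hd
    · rw [h4, stab_insertF h1, ← h3]
    · rw [h4]
      conv_rhs => rw [h3, stab_insertF h1]
  have hebot : ∀ d ∈ S, e d ≠ ⊥ := by
    intro d hd
    obtain ⟨h1, h2, h3⟩ := hm d hd
    obtain ⟨⟨⟨g1, _, _⟩, g4⟩, _⟩ := (hmS d).1 hd
    have g5 := mem_psubIn'.1 (g1 h1)
    apply fix_ne hu g5.2 (H97.mem_stab.1 g4 _ h1)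
    intro h
    exact h2 (h ▸ bot_le)
  have hmem : ∀ d ∈ S, toggle d (e d) ∈ S := by
    intro d hd
    obtain ⟨h1, h2, h3⟩ := hm d hd
    obtain ⟨⟨⟨g1, g2, g3⟩, g4⟩, _⟩ := (hmS d).1 hd
    have h5 : u ∈ C ⊓ stab (toggle d (e d)) := by
      rw [hstab d hd]
      exact ⟨Subgroup.mem_centralizer_singleton_iff.2 rfl, g4⟩
    rw [hmS]
    refine ⟨⟨⟨?_, ?_, ?_⟩, h5.2⟩, ?_⟩
    · intro P hP
      by_cases hPe : P = e d
      · rw [hPe, mem_psubIn']
        have g5 := mem_psubIn'.1 (g1 h1)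
        exact ⟨(heM d).trans g5.1, g5.2.to_le (heM d)⟩
      · exact g1 ((ht d P hPe).1 hP)
    · exact (ht d _ (fun h => hebot d hd h.symm)).2 g2
    · unfold toggle
      split_ifs with h
      · exact g3.mono (by intro y hy; exact Finset.mem_of_mem_erase hy)
      · rw [Finset.coe_insert]
        apply g3.insert
        intro P hP _
        by_cases hPC : P ≤ C
        · rcases chain_total g3 hP h1 with h' | h'
          · right
            exact le_inf h' hPC
          · exact absurd (h'.trans hPC) h2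
        · left
          exact (heM d).trans (h3 P hP hPC)
    · intro h
      exact h2 (h _ ((ht d _ (hne d _ h2)).2 h1))
  have hmt : ∀ d ∈ S, m (toggle d (e d)) = m d := by
    intro d hd
    obtain ⟨h1, h2, h3⟩ := hm d hd
    obtain ⟨g1, g2, g3⟩ := hm _ (hmem d hd)
    apply le_antisymm
    · exact g3 _ ((ht d _ (hne d _ h2)).2 h1) h2
    · exact h3 _ ((ht d _ (hne d _ g2)).1 g1) g2
  apply sum_toggle S e
  · exact hmem
  · intro d hd
    change m (toggle d (e d)) ⊓ C = m d ⊓ C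
    rw [hmt d hd]
  · intro d hd
    rw [hstab d hd]
    obtain ⟨d₀, h1, h2, ⟨h3, h4⟩ | ⟨h3, h4⟩⟩ := hins d hd
    · rw [h4, top_insertF h1 (heM d), Finset.card_insert_of_notMem h2, ← h3]
      ring
    · have h5 : d.card = d₀.card + 1 := by
        rw [h3, Finset.card_insert_of_notMem h2]
      have h6 : top d = top d₀ := by
        rw [h3, top_insertF h1 (heM d)]
      rw [h4, h5, h6]
      ring

end fxu

open Classical in
/-- FXU: the chains of `Y` normalised by an `ℓ`-element `u` can be replaced by the chains of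
`C_Y(u)`. -/
theorem fxu : FxuStmt := by
  intro ℓ _ X _ _ Y _ u hu W
  rw [← Finset.sum_filter_add_sum_filter_not
    ((chainsOn (psubIn ℓ Y) ⊥).filter (fun d => u ∈ stab d))
    (fun d => ∀ P ∈ d, P ≤ Subgroup.centralizer ({u} : Set X)), fxu_zero Y u hu W, add_zero]
  refine Finset.sum_congr ?_ fun _ _ => rfl
  ext d
  rw [Finset.mem_filter, Finset.mem_filter, mem_chainsOn, mem_chainsOn]
  constructor
  · rintro ⟨⟨⟨h1, h2, h3⟩, h4⟩, h5⟩
    refine ⟨fun P hP => ?_, h2, h3⟩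
    have h6 := mem_psubIn'.1 (h1 hP)
    exact mem_psubIn'.2 ⟨le_inf (h5 P hP) h6.1, h6.2⟩
  · rintro ⟨h1, h2, h3⟩
    have h5 : ∀ P ∈ d, P ≤ Subgroup.centralizer ({u} : Set X) := fun P hP =>
      (mem_psubIn'.1 (h1 hP)).1.trans inf_le_left
    refine ⟨⟨⟨fun P hP => ?_, h2, h3⟩, ?_⟩, h5⟩
    · have h6 := mem_psubIn'.1 (h1 hP)
      exact mem_psubIn'.2 ⟨h6.1.trans inf_le_right, h6.2⟩
    · rw [H97.mem_stab]
      intro P hP
      rw [Subgroup.mem_normalizer_iff]
      intro h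
      constructor
      · intro hh
        have := Subgroup.mem_centralizer_singleton_iff.1 (h5 P hP hh)
        rw [← this, mul_inv_cancel_right]
        exact hh
      · intro hh
        have := Subgroup.mem_centralizer_singleton_iff.1 (h5 P hP hh)
        have h7 : u * h * u⁻¹ = h := by
          have h8 : u * h = u * (u * h * u⁻¹) := by
            rw [← this]
            group
          exact (mul_left_cancel h8).symm
        rw [h7] at hh
        exact hh

end Pool.Agent.PP.H47F
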