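import Pool.Agent.Helper65_PP.Shf

/-!
# Squad PP, part R2, module NIE: shears of a torus datum
-/

open scoped BigOperators

set_option linter.unusedSectionVars false

noncomputable section

namespace Pool.Agent.PP.H47

open Pool.Agent.Helper51_AWC Pool.Agent.Helper79_WRA

section lem

variable {F Y : Type} [Field F] [Group Y]

theorem kap_shear (α β : MulAut Y) : kap α (β * α) = kap α β := by
  unfold kap
  group

theorem tw_shear (α β : MulAut Y) (n m : Y) :
    tw (β * α) (α⁻¹ m * n) = tw β m * tw α n := by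
  unfold tw
  have h : α * MulAut.conj (α⁻¹ m) = MulAut.conj m * α := by
    rw [H65.mul_conj', MulAut.apply_inv_self]
  calc β * α * MulAut.conj (α⁻¹ m * n) = β * (α * MulAut.conj (α⁻¹ m)) * MulAut.conj n := by
        rw [map_mul]; group
    _ = β * MulAut.conj m * (α * MulAut.conj n) := by
        rw [h]; group

theorem cc_shear (α β : MulAut Y) (n m : Y) :
    cc α (β * α) n (α⁻¹ m * n) = cc α β n m := by
  unfold cc
  rw [kap_shear]
  have h1 : (kap α β)⁻¹ (α (β n)) = β (α n) := by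
    have h2 : (kap α β)⁻¹ * (α * β) = β * α := by
      unfold kap
      group
    exact congrArg (fun g : MulAut Y => g n) h2
  have h3 : (β * α) (α⁻¹ m * n) = β m * β (α n) := by
    rw [MulAut.mul_apply, map_mul, map_mul, MulAut.apply_inv_self]
  have h4 : (β * α) n = β (α n) := rfl
  rw [h3, h4]
  have h5 : n * (β m * β (α n)) * (β (α n))⁻¹ = n * β m := by group
  rw [h5]
  have h6 : (kap α β)⁻¹ (α (n * β m * (β n)⁻¹)) =
      (kap α β)⁻¹ (α (n * β m)) * (β (α n))⁻¹ := by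
    rw [map_mul α, map_mul, map_inv α, map_inv, h1]
  rw [h6]
  group

theorem mem_fix {a : MulAut Y} {d : Finset (Subgroup Y)} (h : FixC a d) {D : Subgroup Y}
    (hD : D ∈ d) (k : Y) : a k ∈ D ↔ k ∈ D := by
  constructor
  · intro hk
    rw [← h D hD] at hk
    obtain ⟨j, hj, hjk⟩ := hk
    have : j = k := a.injective hjk
    rw [← this]
    exact hj
  · intro hk
    rw [← h D hD]
    exact ⟨k, hk, rfl⟩

theorem mem_stab {d : Finset (Subgroup Y)} {x : Y} :
    x ∈ stab d ↔ ∀ D ∈ d, x ∈ Subgroup.normalizer (D : Set Y) := by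
  unfold stab
  simp only [Subgroup.mem_iInf]

theorem stab_fix {a : MulAut Y} {d : Finset (Subgroup Y)} (h : FixC a d) (x : Y) :
    a x ∈ stab d ↔ x ∈ stab d := by
  rw [mem_stab, mem_stab]
  refine forall₂_congr fun D hD => ?_
  rw [Subgroup.mem_normalizer_iff, Subgroup.mem_normalizer_iff]
  constructor
  · intro hx k
    have h1 := hx (a k)
    rw [mem_fix h hD, ← map_inv, ← map_mul, ← map_mul, mem_fix h hD] at h1
    exact h1
  · intro hx k
    obtain ⟨j, rfl⟩ := a.surjective k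
    rw [mem_fix h hD, ← map_inv, ← map_mul, ← map_mul, mem_fix h hD]
    exact hx j

theorem fixC_shear {a b : MulAut Y} {d : Finset (Subgroup Y)} (h : FixC a d) :
    FixC (b * a) d ↔ FixC b d := by
  unfold FixC
  refine forall₂_congr fun D hD => ?_
  have h1 : D.map (b * a).toMonoidHom = (D.map a.toMonoidHom).map b.toMonoidHom := by
    rw [Subgroup.map_map]
    rfl
  rw [h1, h D hD]

variable {X : Subgroup Y}

theorem tset_shear {a : MulAut Y} (hX : ∀ x, a x ∈ X ↔ x ∈ X) (b : MulAut Y) (f : Y → F) :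
    tset X f a (b * a) = tset X f a b := by
  ext φ
  unfold tset
  constructor
  · rintro ⟨h1, h2, h3, h4⟩
    refine ⟨h1, h2, h3, ?_⟩
    intro h h' hh
    obtain ⟨g, hg⟩ : ∃ g : X, a (g : Y) = h := by
      refine ⟨⟨a⁻¹ h, ?_⟩, ?_⟩
      · rw [← hX, MulAut.apply_inv_self]
        exact h.2
      · exact MulAut.apply_inv_self _ _ _
    rw [h3 g h hg.symm]
    refine h4 g h' ?_
    rw [hh, ← hg]
    rfl
  · rintro ⟨h1, h2, h3, h4⟩
    refine ⟨h1, h2, h3, ?_⟩
    intro h h' hh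
    have hm : a (h : Y) ∈ X := (hX _).2 h.2
    rw [← h3 h ⟨a h, hm⟩ rfl]
    exact h4 ⟨a h, hm⟩ h' hh

theorem isTS_shear {a : MulAut Y} (hX : ∀ x, a x ∈ X ↔ x ∈ X) (b : MulAut Y) (φ : X → F)
    (v : Y → F) (s : F) : IsTS X φ a (b * a) v s ↔ IsTS X φ a b v s := by
  constructor
  · rintro ⟨n, ρ, A, B, h1, h2, h3, h4, h5⟩
    refine ⟨n, ρ, A, B * A⁻¹, h1, h2, h3, ?_, ?_⟩
    · intro h h' hh
      obtain ⟨g, hg⟩ : ∃ g : X, a (g : Y) = h := by
        refine ⟨⟨a⁻¹ h, ?_⟩, ?_⟩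
        · rw [← hX, MulAut.apply_inv_self]
          exact h.2
        · exact MulAut.apply_inv_self _ _ _
      have e1 := h3 g h hg.symm
      have e2 : (B : Matrix (Fin n) (Fin n) F) * ρ g = ρ h' * B := by
        refine h4 g h' ?_
        rw [hh, ← hg]
        rfl
      have e3 : ((A⁻¹ : (Matrix (Fin n) (Fin n) F)ˣ) : Matrix (Fin n) (Fin n) F) * ρ h =
          ρ g * ((A⁻¹ : (Matrix (Fin n) (Fin n) F)ˣ) : Matrix (Fin n) (Fin n) F) := by
        calc ((A⁻¹ : (Matrix (Fin n) (Fin n) F)ˣ) : Matrix (Fin n) (Fin n) F) * ρ h =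
            ((A⁻¹ : (Matrix (Fin n) (Fin n) F)ˣ) : Matrix (Fin n) (Fin n) F) *
              (ρ h * A) * ((A⁻¹ : (Matrix (Fin n) (Fin n) F)ˣ) : Matrix (Fin n) (Fin n) F) := by
              rw [mul_assoc, mul_assoc, Units.mul_inv, mul_one]
          _ = _ := by
              rw [← e1, ← mul_assoc, Units.inv_mul, one_mul]
      rw [Units.val_mul, mul_assoc, e3, ← mul_assoc, e2, mul_assoc]
    · rw [← h5]
      have e : A * (B * A⁻¹) * A⁻¹ * (B * A⁻¹)⁻¹ = A * B * A⁻¹ * B⁻¹ := by group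
      rw [e]
  · rintro ⟨n, ρ, A, B, h1, h2, h3, h4, h5⟩
    refine ⟨n, ρ, A, B * A, h1, h2, h3, ?_, ?_⟩
    · intro h h' hh
      have hm : a (h : Y) ∈ X := (hX _).2 h.2
      have e1 := h3 h ⟨a h, hm⟩ rfl
      have e2 := h4 ⟨a h, hm⟩ h' hh
      rw [Units.val_mul, mul_assoc, e1, ← mul_assoc, e2, mul_assoc]
    · rw [← h5]
      have e : A * (B * A) * A⁻¹ * (B * A)⁻¹ = A * B * A⁻¹ * B⁻¹ := by group
      rw [e]

theorem dite_choose {P Q : F → Prop} (h : P = Q) :
    (open Classical in if h : ∃ s, P s then h.choose else 0) =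
      (open Classical in if h : ∃ s, Q s then h.choose else 0) := by
  subst h
  rfl

theorem ts_shear {a : MulAut Y} (hX : ∀ x, a x ∈ X ↔ x ∈ X) (b : MulAut Y) (φ : X → F)
    (v : Y → F) : ts X φ a (b * a) v = ts X φ a b v := by
  unfold ts
  exact dite_choose (funext fun s => propext (isTS_shear hX b φ v s))

theorem tcon_shear {a : MulAut Y} {d : Finset (Subgroup Y)} (ha : FixC a d) (b : MulAut Y)
    (τ : F → ℂ) (f v : Y → F) : tcon τ f a (b * a) v d = tcon τ f a b v d := by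
  unfold tcon
  rw [tset_shear (stab_fix ha)]
  congr 1
  refine finsum_congr fun φ => ?_
  rw [ts_shear (stab_fix ha)]

end lem

theorem dd_shear {F Y : Type} [Field F] [Group Y] [Finite Y] (τ : F → ℂ) (ℓ : ℕ) (f w : Y → F)
    (α β : MulAut Y) : DD τ ℓ f α (β * α) w = DD τ ℓ f α β w := by
  classical
  unfold DD
  refine finsum_congr fun n => ?_
  rw [← finsum_comp_equiv ((α⁻¹ : MulAut Y).toEquiv.trans (Equiv.mulRight n))]
  refine finsum_congr fun m => ?_
  show ∑ d ∈ (chainsOn (psubIn ℓ (⊤ : Subgroup Y)) ⊥).filter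
    (fun d => NormalChain d ∧ FixC (tw α n) d ∧ FixC (tw (β * α) (α⁻¹ m * n)) d),
      (-1) ^ (d.card + 1) * tcon τ f (tw α n) (tw (β * α) (α⁻¹ m * n))
        (fun y => w (cc α (β * α) n (α⁻¹ m * n) * y)) d = _
  rw [tw_shear, cc_shear]
  refine Finset.sum_congr (Finset.filter_congr fun d _ => ?_) fun d hd => ?_
  · refine and_congr_right fun _ => and_congr_right fun h => fixC_shear h
  · have h := (Finset.mem_filter.1 hd).2.2.1
    rw [tcon_shear h]

theorem nie : NieStmt := by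
  intro ℓ F _ hF Y _ _ f α β hV τ hτ w wi hT
  rw [← dd_shear]
  refine hV τ hτ w wi ⟨hT.blk, hT.fa, ?_, ?_⟩
  · intro y
    show f (β (α y)) = f y
    rw [hT.fb, hT.fa]
  · rw [kap_shear]
    exact hT.unt

end Pool.Agent.PP.H47
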