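import Pool.Agent.Helper66_PP.StmtsLQ

/-!
# Squad PP, part LQ, module OSI: central idempotents are supported on the `ℓ`-regular elements
-/

open scoped BigOperators

noncomputable section

namespace Pool.Agent.PP.H47O

open Pool.Agent.PP

/-- the `ℓ`-part and the `ℓ'`-part of an element -/
theorem decomp {H : Type} [Group H] [Finite H] {ℓ : ℕ} (hℓ : ℓ.Prime) (x : H) :
    ∃ v w : H, v * w = x ∧ Commute v w ∧ (∃ n : ℕ, v ^ ℓ ^ n = 1) ∧ Reg ℓ w := by
  have hpos : 0 < orderOf x := orderOf_pos x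
  obtain ⟨a, m, hm, hx⟩ := Nat.exists_eq_pow_mul_and_not_dvd hpos.ne' ℓ hℓ.ne_one
  have hco : Nat.Coprime (ℓ ^ a) m := Nat.Coprime.pow_left _ ((Nat.Prime.coprime_iff_not_dvd hℓ).2 hm)
  have hbz : (1 : ℤ) = ((ℓ ^ a : ℕ) : ℤ) * Nat.gcdA (ℓ ^ a) m + (m : ℤ) * Nat.gcdB (ℓ ^ a) m := by
    have h := Nat.gcd_eq_gcd_ab (ℓ ^ a) m
    rw [hco.gcd_eq_one] at h
    exact_mod_cast h
  set s := Nat.gcdA (ℓ ^ a) m
  set t := Nat.gcdB (ℓ ^ a) m
  have hord : x ^ (ℓ ^ a * m) = 1 := by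
    rw [← hx]
    exact pow_orderOf_eq_one x
  have hordz : x ^ (((ℓ ^ a : ℕ) : ℤ) * (m : ℤ)) = 1 := by
    rw [← Nat.cast_mul, zpow_natCast]
    exact hord
  refine ⟨x ^ ((m : ℤ) * t), x ^ (((ℓ ^ a : ℕ) : ℤ) * s), ?_, ?_, ⟨a, ?_⟩, ?_⟩
  · rw [← zpow_add, add_comm, ← hbz, zpow_one]
  · exact (Commute.refl x).zpow_zpow _ _
  · rw [← zpow_natCast, ← zpow_mul]
    have : (m : ℤ) * t * ((ℓ ^ a : ℕ) : ℤ) = ((ℓ ^ a : ℕ) : ℤ) * (m : ℤ) * t := by ring
    rw [this, zpow_mul, hordz, one_zpow]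
  · have h1 : (x ^ (((ℓ ^ a : ℕ) : ℤ) * s)) ^ m = 1 := by
      rw [← zpow_natCast, ← zpow_mul]
      have : ((ℓ ^ a : ℕ) : ℤ) * s * (m : ℤ) = ((ℓ ^ a : ℕ) : ℤ) * (m : ℤ) * s := by ring
      rw [this, zpow_mul, hordz, one_zpow]
    have h2 : orderOf (x ^ (((ℓ ^ a : ℕ) : ℤ) * s)) ∣ m := orderOf_dvd_of_pow_eq_one h1
    have h3 : Nat.Coprime m ℓ := ((Nat.Prime.coprime_iff_not_dvd hℓ).2 hm).symm
    exact Nat.Coprime.coprime_dvd_left h2 h3

theorem not_reg {H : Type} [Group H] [Finite H] {ℓ : ℕ} {v : H} (hv : ∃ n : ℕ, v ^ ℓ ^ n = 1)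
    (hr : Reg ℓ v) : v = 1 := by
  obtain ⟨n, hn⟩ := hv
  have h1 : orderOf v ∣ ℓ ^ n := orderOf_dvd_of_pow_eq_one hn
  have h2 : Nat.Coprime (orderOf v) (ℓ ^ n) := Nat.Coprime.pow_right n hr
  rw [← orderOf_eq_one_iff]
  exact Nat.Coprime.eq_one_of_dvd h2 h1

theorem mulF_eq {F H : Type} [Field F] [Group H] [Finite H] (a b : H → F) (hb : IsCl b) (x : H) :
    mulF a b x = actF a (fun y => b y⁻¹) x⁻¹ := by
  unfold mulF actF
  refine finsum_congr fun t => ?_
  have h : (t * x⁻¹)⁻¹ = x * t⁻¹ := by group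
  change a t * b (t⁻¹ * x) = a t * b (t * x⁻¹)⁻¹
  rw [h]
  have h2 : b (x * t⁻¹) = b (t⁻¹ * x) := by
    have := hb (t⁻¹ * x) x
    rw [← this]
    congr 1
    group
  rw [h2]

theorem act_cent (hS : SmaStmt) {ℓ : ℕ} {F : Type} [Field F] (hF : GoodF ℓ F) {H : Type} [Group H]
    [Finite H] {a f : H → F} (ha : IsCl a) (hf : IsCl f) {u : H} (hu : ∃ n : ℕ, u ^ ℓ ^ n = 1)
    (y : Subgroup.centralizer ({u} : Set H)) :
    actF a f y = actF (fun t : Subgroup.centralizer ({u} : Set H) => a t)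
      (fun w : Subgroup.centralizer ({u} : Set H) => f w) y := by
  have hum : u ∈ Subgroup.centralizer ({u} : Set H) := Subgroup.mem_centralizer_singleton_iff.2 rfl
  have h := hS ℓ F hF H a f ha hf u hu (⟨u, hum⟩⁻¹ * y)
  have e1 : u * ((⟨u, hum⟩⁻¹ * y : Subgroup.centralizer ({u} : Set H)) : H) = y := by
    change u * (u⁻¹ * (y : H)) = y
    rw [mul_inv_cancel_left]
  rw [e1] at h
  rw [h]
  unfold actF
  refine finsum_congr fun t => ?_
  change a t * f (u * ((t : H) * (u⁻¹ * (y : H)))) = a t * f ((t : H) * y)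
  have ht : (t : H) * u = u * t := Subgroup.mem_centralizer_singleton_iff.1 t.2
  rw [← mul_assoc, ← ht, mul_assoc, mul_inv_cancel_left]

theorem idem_cent (hS : SmaStmt) {ℓ : ℕ} {F : Type} [Field F] (hF : GoodF ℓ F) {H : Type} [Group H]
    [Finite H] {e : H → F} (he : IsIdem e) {u : H} (hu : ∃ n : ℕ, u ^ ℓ ^ n = 1) :
    IsIdem (fun t : Subgroup.centralizer ({u} : Set H) => e t) := by
  refine ⟨fun x y => he.1 x y, ?_⟩
  funext x
  have hcl : IsCl (fun y : H => e y⁻¹) := by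
    intro x y
    have := he.1 x⁻¹ y
    change e (y * x * y⁻¹)⁻¹ = e x⁻¹
    rw [← this]
    congr 1
    group
  change mulF (fun t : Subgroup.centralizer ({u} : Set H) => e t)
    (fun t : Subgroup.centralizer ({u} : Set H) => e t) x = e x
  rw [mulF_eq (fun t : Subgroup.centralizer ({u} : Set H) => e t)
    (fun t : Subgroup.centralizer ({u} : Set H) => e t) (fun x y => he.1 x y) x]
  have h := act_cent hS hF he.1 hcl hu x⁻¹
  have h2 := mulF_eq e e he.1 x
  rw [he.2] at h2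
  refine Eq.trans ?_ (h.symm.trans ?_ )
  · rfl
  · exact h2.symm

/-- OSI (Osima): central idempotents are supported on the `ℓ`-regular elements. -/
theorem osi (hS : SmaStmt) (hR : RglStmt) : OsiStmt := by
  classical
  intro ℓ F _ hF H _ _ e he x hx
  obtain ⟨v, w, hvw, hc, hv, hw⟩ := decomp hF.prime x⁻¹
  have hv1 : v ≠ 1 := by
    rintro rfl
    apply hx
    rw [one_mul] at hvw
    unfold Reg
    rw [← orderOf_inv, ← hvw]
    exact hw
  let δ : H → F := fun t => if t = 1 then 1 else 0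
  have hδ : IsCl δ := by
    intro x y
    change (if y * x * y⁻¹ = 1 then (1 : F) else 0) = if x = 1 then 1 else 0
    rw [conj_eq_one_iff]
  have h1 : actF e δ x⁻¹ = e x := by
    unfold actF
    rw [finsum_eq_single _ x]
    · change e x * (if x * x⁻¹ = 1 then (1 : F) else 0) = e x
      rw [if_pos (mul_inv_cancel x), mul_one]
    · intro t ht
      change e t * (if t * x⁻¹ = 1 then (1 : F) else 0) = 0
      rw [if_neg (fun h => ht (mul_inv_eq_one.1 h)), mul_zero]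
  have hwm : w ∈ Subgroup.centralizer ({v} : Set H) :=
    Subgroup.mem_centralizer_singleton_iff.2 hc.symm.eq
  have hS' := hS ℓ F hF H e δ he.1 hδ v hv ⟨w, hwm⟩
  have hg : IsCl (fun w : Subgroup.centralizer ({v} : Set H) => δ (v * w)) := by
    intro x y
    have h := hδ (v * x) y
    change δ (v * ((y : H) * x * (y : H)⁻¹)) = δ (v * x)
    rw [← h]
    congr 1
    have hy : (y : H) * v = v * y := Subgroup.mem_centralizer_singleton_iff.1 y.2
    rw [← mul_assoc, ← mul_assoc, ← hy]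
    group
  have hz : ∀ w : Subgroup.centralizer ({v} : Set H), Reg ℓ w →
      (fun w : Subgroup.centralizer ({v} : Set H) => δ (v * w)) w = 0 := by
    intro y hy
    change (if v * (y : H) = 1 then (1 : F) else 0) = 0
    rw [if_neg]
    intro h
    apply hv1
    apply not_reg hv
    have h2 : v = (y : H)⁻¹ := eq_inv_of_mul_eq_one_left h
    unfold Reg at hy ⊢
    rw [h2, orderOf_inv, Subgroup.orderOf_coe]
    exact hy
  have hwr : Reg ℓ (⟨w, hwm⟩ : Subgroup.centralizer ({v} : Set H)) := by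
    unfold Reg at hw ⊢
    rw [← Subgroup.orderOf_coe]
    exact hw
  have hfin := hR ℓ F hF _ (fun t : Subgroup.centralizer ({v} : Set H) => e t) _
    (idem_cent hS hF he hv) hg hz ⟨w, hwm⟩ hwr
  rw [hfin] at hS'
  rw [← h1, ← hvw]
  exact hS'

end Pool.Agent.PP.H47O
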